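import Pool.Agent.Helper18.SU.Goals3

/-! Oriented trees in tournaments: the split case, with the sharper bound. -/

set_option autoImplicit false

namespace Pool.Agent.Helper24.SU

open Pool.Agent.Helper18.SU
open Finset

theorem SPL3 (h1 : CAN_stmt) (h2 : TG_stmt) (_h3 : DSC_stmt) (_h4 : DEG_stmt) (h5 : GLU_stmt)
    (h6 : IND3_stmt) (h7 : KSPL_stmt) (h8 : WGT_stmt) : SPL3_stmt := by
  classical
  intro W V _ _ _ _ A r par dep sgn K β m G E1 E2 E3 θ τ hctx hE1 hG halt hθ hτ v hv σ C hC
    hw1 hw2 X1 X2 hX1 hX2 hdis hc1 hc2 hdiff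
  have hctx' := hctx
  obtain ⟨hT, hR, hrK, hK, hβ, hm, hcard⟩ := hctx
  set p := mas par sgn K true with hpdef
  set X := low A true (p + G) with hX
  obtain ⟨f0, hf0, hor⟩ := h7 W V A hT r par dep hR sgn K hrK hK v hv σ C hC X1 X2 hdis
    (by omega) (by omega)
  have hf0X : Emb A r par sgn K (typ A X p E2) f0 :=
    ⟨fun w hw => (union_subset hX1 hX2) (hf0.1 w hw), hf0.2.1, hf0.2.2⟩
  have hf0U : Emb A r par sgn K Finset.univ f0 :=
    ⟨fun w _ => mem_univ _, hf0.2.1, hf0.2.2⟩
  obtain ⟨U0, hU0, hU0X⟩ := h6 W V A r par dep sgn K β m G E1 E2 E3 hctx' hE1 hG halt f0 hf0X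
  set F := K.image f0 ∪ (topd par sgn K false).biUnion U0 with hF
  have hFX : (F ∩ X).card ≤ m + E3 := by
    rw [hF, union_inter_distrib_right]
    refine (card_union_le _ _).trans (Nat.add_le_add ?_ hU0X)
    exact (card_le_card inter_subset_left).trans (card_image_le.trans hm)
  set O : W → Finset V := fun c => nb A true X (f0 (par c)) \ F with hO
  have hdscb : ∀ c, bsz par Finset.univ c = (dsc par c).card := by
    intro c
    simp [bsz, dsi]
  -- parents are in K
  have hpar : ∀ c ∈ topd par sgn K true, c ∈ tops par K ∧ par c ∈ K := by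
    intro c hc
    simp only [topd, mem_filter] at hc
    refine ⟨hc.1, ?_⟩
    have := hc.1
    simp only [tops, mem_filter] at this
    exact this.2.2
  have hparX : ∀ c ∈ topd par sgn K true, f0 (par c) ∈ X1 ∪ X2 := fun c hc =>
    hf0.1 _ (hpar c hc).2
  set I := (topd par sgn K true).filter (fun c => f0 (par c) ∈ X1) with hI
  set J := (topd par sgn K true).filter (fun c => f0 (par c) ∈ X2) with hJ
  have hIJ : I ∪ J = topd par sgn K true := by
    ext c
    simp only [hI, hJ, mem_union, mem_filter]
    constructor
    · rintro (h | h) <;> exact h.1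
    · intro h
      rcases mem_union.1 (hparX c h) with h' | h'
      · exact Or.inl ⟨h, h'⟩
      · exact Or.inr ⟨h, h'⟩
  have hIJd : Disjoint I J := by
    rw [disjoint_left]
    intro c hc hc'
    rw [hI, mem_filter] at hc
    rw [hJ, mem_filter] at hc'
    exact disjoint_left.1 hdis hc.2 hc'.2
  have hcutK : cut par K C ⊆ K := by
    intro w hw
    simp only [cut, mem_filter] at hw
    exact hw.1
  have hwgt := (h8 W par sgn K).2.2 (cut par K C) hcutK
  have hwgtsum : ∀ S, wgt par sgn K S = ∑ c ∈ topv par sgn K S, (dsc par c).card := fun S => rfl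
  have htopv : ∀ S, topv par sgn K S = (topd par sgn K true).filter (fun c => par c ∈ S) := by
    intro S
    ext c
    simp only [topv, mem_filter]
  have hsumIJ : θ ≤ ∑ i ∈ I, bsz par Finset.univ i ∧ θ ≤ ∑ i ∈ J, bsz par Finset.univ i := by
    simp only [hdscb]
    rcases hor with ⟨ha, hb⟩ | ⟨ha, hb⟩
    · have e1 : J = topv par sgn K (cut par K C) := by
        rw [htopv, hJ]
        apply filter_congr
        intro c hc
        constructor
        · intro h
          by_contra hn
          exact disjoint_left.1 hdis (hb _ (hpar c hc).2 hn) h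
        · intro h
          exact ha _ h
      have e2 : I = topv par sgn K (K \ cut par K C) := by
        rw [htopv, hI]
        apply filter_congr
        intro c hc
        constructor
        · intro h
          rw [mem_sdiff]
          refine ⟨(hpar c hc).2, fun hn => ?_⟩
          exact disjoint_left.1 hdis h (ha _ hn)
        · intro h
          rw [mem_sdiff] at h
          exact hb _ h.1 h.2
      rw [e1, e2, ← hwgtsum, ← hwgtsum]
      omega
    · have e1 : I = topv par sgn K (cut par K C) := by
        rw [htopv, hI]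
        apply filter_congr
        intro c hc
        constructor
        · intro h
          by_contra hn
          exact disjoint_left.1 hdis h (hb _ (hpar c hc).2 hn)
        · intro h
          exact ha _ h
      have e2 : J = topv par sgn K (K \ cut par K C) := by
        rw [htopv, hJ]
        apply filter_congr
        intro c hc
        constructor
        · intro h
          rw [mem_sdiff]
          refine ⟨(hpar c hc).2, fun hn => ?_⟩
          exact disjoint_left.1 hdis (ha _ hn) h
        · intro h
          rw [mem_sdiff] at h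
          exact hb _ h.1 h.2
      rw [e1, e2, ← hwgtsum, ← hwgtsum]
      omega
  have hsum : ∑ i ∈ I ∪ J, bsz par Finset.univ i = p := by
    rw [hIJ]
    simp only [hdscb]
    rfl
  have hnbX : ∀ c, nb A true X (f0 (par c)) \ (F ∩ X) ⊆ O c := by
    intro c y hy
    rw [mem_sdiff] at hy
    rw [hO]
    simp only [mem_sdiff]
    refine ⟨hy.1, fun hn => hy.2 (mem_inter.2 ⟨hn, ?_⟩)⟩
    have := hy.1
    rw [nb, mem_filter] at this
    exact this.1
  have htyp : ∀ x ∈ X1 ∪ X2, p ≤ (nb A true X x).card + E2 := by
    intro x hx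
    have := union_subset hX1 hX2 hx
    rw [typ, mem_filter] at this
    exact this.2
  obtain ⟨U1, hU1⟩ := h2 W V (bsz par Finset.univ) (itm A r par sgn Finset.univ)
    (h1 W V A hT r par dep hR sgn Finset.univ) O I J β (E2 + m + E3) τ hIJd
    (by
      intro c hc
      rw [hIJ] at hc
      rw [hdscb]
      exact hβ c (hpar c hc).1)
    (by
      intro c hc
      rw [hsum]
      rw [hIJ] at hc
      have e1 := htyp _ (hparX c hc)
      have e2 := card_le_card (hnbX c)
      have e3 := le_card_sdiff (F ∩ X) (nb A true X (f0 (par c)))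
      omega)
    (by
      intro i hi j hj
      rw [hI, mem_filter] at hi
      rw [hJ, mem_filter] at hj
      have e1 := hdiff _ hi.2 _ hj.2
      have e2 : (nb A true X (f0 (par i)) \ nb A true X (f0 (par j))) \ (F ∩ X) ⊆ O i \ O j := by
        intro y hy
        rw [mem_sdiff, mem_sdiff] at hy
        rw [mem_sdiff]
        refine ⟨hnbX i (mem_sdiff.2 ⟨hy.1.1, hy.2⟩), fun hn => ?_⟩
        rw [hO] at hn
        simp only [mem_sdiff] at hn
        exact hy.1.2 hn.1
      have e3 := card_le_card e2
      have e4 := le_card_sdiff (F ∩ X) (nb A true X (f0 (par i)) \ nb A true X (f0 (par j)))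
      omega)
    (by have := hsumIJ.1; omega)
    (by have := hsumIJ.2; omega)
    hτ
  rw [hIJ] at hU1
  refine h5 W V A r par dep hR sgn K hrK hK f0 hf0U U1 U0 O _ hU1 hU0 ?_ ?_ ?_
  · intro c _ y hy
    rw [hO] at hy
    simp only [mem_sdiff] at hy
    rw [mem_sdiff]
    refine ⟨?_, fun hn => hy.2 (mem_union_left _ hn)⟩
    have := hy.1
    rw [nb, mem_filter] at this ⊢
    exact ⟨mem_univ _, this.2⟩
  · intro c _
    exact Subset.rfl
  · intro c hc c' hc'
    rw [disjoint_left]
    intro y hy hy'
    have e1 := (hU1.1 c hc).1 hy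
    rw [hO] at e1
    simp only [mem_sdiff] at e1
    exact e1.2 (mem_union_right _ (mem_biUnion.2 ⟨c', hc', hy'⟩))

end Pool.Agent.Helper24.SU
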